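import Pool.Agent.P8H10.ET.StmC

/-!
# Project ET, package MOD: the transformation rule of the Eisenstein series
-/

set_option autoImplicit false

namespace Pool.Agent.P8H7.ET

open Pool.Agent.P8H10.ET

/-- the bijection of `ℤ × ℤ` of an integral matrix of determinant one -/
def modEquiv (a b c d : ℤ) (h : a * d - b * c = 1) : ℤ × ℤ ≃ ℤ × ℤ where
  toFun p := (p.1 * d + p.2 * b, p.1 * c + p.2 * a)
  invFun q := (q.1 * a - q.2 * b, q.2 * d - q.1 * c)
  left_inv := by
    rintro ⟨m, n⟩
    ext
    · show (m * d + n * b) * a - (m * c + n * a) * b = m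
      linear_combination m * h
    · show (m * c + n * a) * d - (m * d + n * b) * c = n
      linear_combination n * h
  right_inv := by
    rintro ⟨m, n⟩
    ext
    · show (m * a - n * b) * d + (n * d - m * c) * b = m
      linear_combination m * h
    · show (m * a - n * b) * c + (n * d - m * c) * a = n
      linear_combination n * h

theorem mod : S_MOD := by
  intro k a b c d h τ hτ
  have hne : ((c : ℂ) * τ + d) ≠ 0 := by
    intro h0
    have him : (c : ℝ) * τ.im = 0 := by
      have := congrArg Complex.im h0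
      simpa using this
    have hre : (c : ℝ) * τ.re + d = 0 := by
      have := congrArg Complex.re h0
      simpa using this
    rcases mul_eq_zero.1 him with hc | hc
    · have hc' : c = 0 := by exact_mod_cast hc
      rw [hc', Int.cast_zero, zero_mul, zero_add] at hre
      have hd' : d = 0 := by exact_mod_cast hre
      rw [hc', hd'] at h
      simp at h
    · exact hτ hc
  unfold EG
  rw [← tsum_mul_left]
  conv_rhs => rw [← Equiv.tsum_eq (modEquiv a b c d h)]
  refine tsum_congr fun p => ?_
  show _ = ((c : ℂ) * τ + d) ^ k *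
    ((((p.1 * d + p.2 * b : ℤ) : ℂ) + ((p.1 * c + p.2 * a : ℤ) : ℂ) * τ) ^ k)⁻¹
  have h1 : (p.1 : ℂ) + p.2 * ((a * τ + b) / (c * τ + d)) =
      (((p.1 * d + p.2 * b : ℤ) : ℂ) + ((p.1 * c + p.2 * a : ℤ) : ℂ) * τ) / (c * τ + d) := by
    rw [eq_div_iff hne, add_mul, mul_assoc (p.2 : ℂ), div_mul_cancel₀ _ hne]
    push_cast
    ring
  rw [h1, div_pow, inv_div, div_eq_mul_inv]

end Pool.Agent.P8H7.ET
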